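import Pool.Agent.H37.QT.Two

/-!
QT Fin: the biquadratic test and the excluded families.
-/

set_option autoImplicit false

namespace Pool.Agent.H37.QT

open Pool.Agent.H37.PPC Pool.Agent.H37.PV

theorem two_le_of_not_square {m : ℕ} (h : ¬ IsSquare m) : 2 ≤ m := by
  by_contra hlt
  rcases (by omega : m = 0 ∨ m = 1) with rfl | rfl
  · exact h ⟨0, rfl⟩
  · exact h ⟨1, rfl⟩

theorem qt_main :
    (∀ m : ℕ, ¬ IsSquare m → (∃ k : ℕ, ¬ 3 ∣ k ∧ IsOrder (m ^ k)) →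
      ∀ a b : ℤ, (2 : ℤ) ∣ b → a ^ 2 + b ^ 2 = (m : ℤ) ^ 2 + m + 1 →
        (∀ p : ℕ, p.Prime → p ≠ 2 → p ∣ m →
          IsSquare ((-1 : ZMod p) ^ ((m ^ 2 + m) / 4) * (2 * ((a : ZMod p) + 1)))) ∧
        (2 ∣ m → (8 : ℤ) ∣ b)) ∧
    (∀ s k : ℕ, s % 8 = 4 ∨ s % 8 = 6 → ¬ 3 ∣ k → ¬ IsOrder ((s ^ 2 - 1) ^ k)) ∧
    (∀ t k : ℕ, t % 8 = 4 ∨ t % 8 = 5 ∨ t % 8 = 7 → ¬ 3 ∣ k → ¬ IsOrder ((3 * t ^ 2) ^ k)) := by
  refine ⟨fun m hsq hbad a b hb hab => ⟨fun p hp hp2 hpm => ?_, fun he => ?_⟩, fun s k hs hk hO => ?_,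
    fun t k ht hk hO => ?_⟩
  · exact test (two_le_of_not_square hsq) hsq hbad a b hb hab p hp hp2 hpm
  · exact test2 (two_le_of_not_square hsq) hsq hbad he a b hb hab
  · exact excluded s hs ⟨k, hk, hO⟩
  · rcases ht with h | h
    · exact excluded3_even t (Or.inr (Or.inl h)) ⟨k, hk, hO⟩
    · exact excluded3 t h ⟨k, hk, hO⟩

end Pool.Agent.H37.QT
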