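import Pool.Agent.H37.QT.Gs

/-!
QT Gi: the product formula for Gaussian integers `z` with odd norm `N` and even imaginary part, by induction over the prime divisors of `N`:
`f(z)^((p-1)/2) N^((p-1)/4) = 1` for `p ≡ 1 mod 4`, `f(z)^((p+1)/2) N^((p-3)/4) = (-1)^((N-1)/4)` for `p ≡ 3 mod 4`.
-/

set_option autoImplicit false

namespace Pool.Agent.H37.QT

/-- the norm as a natural number -/
def nn (z : GaussianInt) : ℕ := z.norm.natAbs

theorem nn_eq (z : GaussianInt) : ((nn z : ℕ) : ℤ) = z.re ^ 2 + z.im ^ 2 := by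
  unfold nn
  rw [Int.natCast_natAbs, abs_of_nonneg (GaussianInt.norm_nonneg z), Zsqrtd.norm_def]
  ring

theorem nn_mul (z w : GaussianInt) : nn (z * w) = nn z * nn w := by
  unfold nn
  rw [Zsqrtd.norm_mul, Int.natAbs_mul]

theorem nn_mod {z : GaussianInt} (ho : nn z % 2 = 1) (hi : (2 : ℤ) ∣ z.im) : nn z % 4 = 1 := by
  have h := nn_eq z
  obtain ⟨j, hj⟩ := hi
  have h1 : z.re % 2 = 1 := by
    by_contra hne
    obtain ⟨i, hi⟩ : (2 : ℤ) ∣ z.re := by omega
    rw [hi, hj] at h
    have h2 : ((nn z : ℕ) : ℤ) = 2 * (2 * i ^ 2 + 2 * j ^ 2) := by rw [h]; ring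
    omega
  obtain ⟨i, hi⟩ : ∃ i, z.re = 2 * i + 1 := ⟨z.re / 2, by omega⟩
  rw [hi, hj] at h
  have h2 : ((nn z : ℕ) : ℤ) = 4 * (i ^ 2 + i + j ^ 2) + 1 := by rw [h]; ring
  omega

section

variable {p : ℕ} {K : Type} [Field K] (ι : K) (hι : ι ^ 2 = -1)

/-- the product formula -/
def TT (p : ℕ) (z : GaussianInt) : Prop :=
  (p % 4 = 1 → gf ι hι z ^ ((p - 1) / 2) * (nn z : K) ^ ((p - 1) / 4) = 1) ∧
    (p % 4 = 3 → gf ι hι z ^ ((p + 1) / 2) * (nn z : K) ^ ((p - 3) / 4) = (-1) ^ ((nn z - 1) / 4))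

theorem TT_mul (z w : GaussianInt) (hz : nn z % 4 = 1) (hw : nn w % 4 = 1) (h1 : TT ι hι p z) (h2 : TT ι hι p w) :
    TT ι hι p (z * w) := by
  unfold TT at *
  rw [map_mul, nn_mul]
  constructor
  · intro hp
    have e1 := h1.1 hp
    have e2 := h2.1 hp
    rw [Nat.cast_mul, mul_pow, mul_pow]
    calc _ = (gf ι hι z ^ ((p - 1) / 2) * (nn z : K) ^ ((p - 1) / 4)) *
          (gf ι hι w ^ ((p - 1) / 2) * (nn w : K) ^ ((p - 1) / 4)) := by ring
      _ = 1 := by rw [e1, e2, one_mul]
  · intro hp
    have e1 := h1.2 hp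
    have e2 := h2.2 hp
    obtain ⟨x, hx⟩ : ∃ x, nn z = 4 * x + 1 := ⟨nn z / 4, by omega⟩
    obtain ⟨y, hy⟩ : ∃ y, nn w = 4 * y + 1 := ⟨nn w / 4, by omega⟩
    have h3 : (nn z * nn w - 1) / 4 = (nn z - 1) / 4 + (nn w - 1) / 4 + 2 * (2 * (x * y)) := by
      rw [hx, hy]
      have h4 : (4 * x + 1) * (4 * y + 1) - 1 = 4 * (x + y + 2 * (2 * (x * y))) := by
        have : (4 * x + 1) * (4 * y + 1) = 4 * (x + y + 2 * (2 * (x * y))) + 1 := by ring
        omega
      rw [h4]
      omega
    rw [Nat.cast_mul, mul_pow, mul_pow, h3, pow_add, pow_add, pow_mul, neg_one_sq, one_pow, mul_one]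
    calc _ = (gf ι hι z ^ ((p + 1) / 2) * (nn z : K) ^ ((p - 3) / 4)) *
          (gf ι hι w ^ ((p + 1) / 2) * (nn w : K) ^ ((p - 3) / 4)) := by ring
      _ = _ := by rw [e1, e2]

theorem TT_one (z : GaussianInt) (h1 : nn z = 1) (hi : (2 : ℤ) ∣ z.im) : TT ι hι p z := by
  have h := nn_eq z
  rw [h1] at h
  have him : z.im = 0 := by
    obtain ⟨j, hj⟩ := hi
    have h3 : z.im ^ 2 ≤ 1 := by
      have := sq_nonneg z.re
      push_cast at h
      linarith
    have h4 : j = 0 := by
      rw [hj] at h3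
      nlinarith [sq_nonneg j, sq_nonneg (j - 1), sq_nonneg (j + 1)]
    rw [hj, h4]
    norm_num
  have hre : z.re ^ 2 = 1 := by
    rw [him] at h
    push_cast at h
    linarith
  have hg : gf ι hι z ^ 2 = 1 := by
    rw [gf_apply, him]
    have : ((z.re : ℤ) : K) ^ 2 = 1 := by exact_mod_cast congrArg (Int.cast : ℤ → K) hre
    rw [Int.cast_zero, zero_mul, add_zero, this]
  unfold TT
  rw [h1]
  constructor
  · intro hp
    have e : (p - 1) / 2 = 2 * ((p - 1) / 4) := by omega
    rw [e, pow_mul, hg, one_pow, Nat.cast_one, one_pow, mul_one]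
  · intro hp
    have e : (p + 1) / 2 = 2 * ((p + 1) / 4) := by omega
    rw [e, pow_mul, hg, one_pow, Nat.cast_one, one_pow, mul_one]
    norm_num

theorem TT_inert [CharP K p] (hp : p.Prime) (hp2 : p ≠ 2) (q : ℕ) (hq : q.Prime) (hq3 : q % 4 = 3) (hpq : p ≠ q) :
    TT ι hι p (q : GaussianInt) := by
  have hfp : Fact p.Prime := ⟨hp⟩
  have hn : nn (q : GaussianInt) = q ^ 2 := by
    have h := nn_eq (q : GaussianInt)
    have h1 : ((q : GaussianInt)).re = q := by simp
    have h2 : ((q : GaussianInt)).im = 0 := by simp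
    rw [h1, h2] at h
    have h3 : ((nn (q : GaussianInt) : ℕ) : ℤ) = ((q ^ 2 : ℕ) : ℤ) := by
      rw [h]
      push_cast
      ring
    exact_mod_cast h3
  have hqK : (q : K) ≠ 0 := by
    intro h
    rw [CharP.cast_eq_zero_iff K p] at h
    exact hpq ((Nat.prime_dvd_prime_iff_eq hp hq).mp h)
  have hfr : (q : K) ^ p = q := by
    have := map_natCast (frobenius K p) q
    rwa [frobenius_def] at this
  have h1 : (q : K) ^ (p - 1) = 1 := by
    have h2 : (q : K) ^ (p - 1) * q = 1 * q := by
      rw [← pow_succ, Nat.sub_add_cancel hp.one_le, hfr, one_mul]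
    exact mul_right_cancel₀ hqK h2
  unfold TT
  rw [hn, map_natCast]
  constructor
  · intro hp4
    push_cast
    rw [← pow_mul, ← pow_add]
    have e : (p - 1) / 2 + 2 * ((p - 1) / 4) = p - 1 := by omega
    rw [e, h1]
  · intro hp4
    push_cast
    rw [← pow_mul, ← pow_add]
    have e : (p + 1) / 2 + 2 * ((p - 3) / 4) = p - 1 := by omega
    rw [e, h1]
    obtain ⟨j, hj⟩ : ∃ j, q = 4 * j + 3 := ⟨q / 4, by omega⟩
    have h5 : (q ^ 2 - 1) / 4 = 2 * (2 * (j * j) + 3 * j + 1) := by
      rw [hj]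
      have h6 : (4 * j + 3) ^ 2 - 1 = 4 * (2 * (2 * (j * j) + 3 * j + 1)) := by
        have : (4 * j + 3) ^ 2 = 4 * (2 * (2 * (j * j) + 3 * j + 1)) + 1 := by ring
        omega
      rw [h6]
      omega
    rw [h5, pow_mul, neg_one_sq, one_pow]

theorem prime_of_nn (J : GaussianInt) (hJ : (nn J).Prime) : Prime J := by
  have hirr : Irreducible J := by
    constructor
    · intro hu
      have := (Zsqrtd.norm_eq_one_iff).2 hu
      unfold nn at hJ
      rw [this] at hJ
      exact Nat.not_prime_one hJ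
    · intro a b hab
      rw [hab, nn_mul] at hJ
      rcases Nat.prime_mul_iff.1 hJ with ⟨-, h⟩ | ⟨-, h⟩
      · exact Or.inr ((Zsqrtd.norm_eq_one_iff).1 h)
      · exact Or.inl ((Zsqrtd.norm_eq_one_iff).1 h)
  exact hirr.prime

theorem star_dvd {J z : GaussianInt} (h : J ∣ star z) : star J ∣ z := by
  obtain ⟨w, hw⟩ := h
  refine ⟨star w, ?_⟩
  rw [← star_mul', ← hw, star_star]

/-- the product formula holds -/
theorem TT_all [CharP K p] [IsAlgClosed K] (hp : p.Prime) (hp2 : p ≠ 2) :
    ∀ (N : ℕ) (z : GaussianInt), nn z = N → N % 2 = 1 → (2 : ℤ) ∣ z.im →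
      (∀ q : ℕ, q.Prime → q ∣ N → p ≠ q ∧ (q % 4 = 1 → ∃ y : ZMod q, ((p : ℕ) : ZMod q) = y ^ 4)) → TT ι hι p z := by
  intro N
  induction N using Nat.strong_induction_on with
  | _ N ih =>
    intro z hz ho hi H
    rcases Nat.eq_or_lt_of_le (Nat.one_le_iff_ne_zero.2 (by omega : N ≠ 0)) with h1 | h1
    · exact TT_one ι hι z (hz.trans h1.symm) hi
    obtain ⟨q, hq, hqN⟩ := Nat.exists_prime_and_dvd (by omega : N ≠ 1)
    obtain ⟨hpq, hq4⟩ := H q hq hqN
    have hq2 : q % 2 = 1 := by
      rcases hq.eq_two_or_odd with h | h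
      · rw [h] at hqN
        omega
      · exact h
    have hznorm : (z * star z : GaussianInt) = ((N : ℕ) : GaussianInt) := by
      rw [← Zsqrtd.norm_eq_mul_conj]
      have h2 : z.norm = ((N : ℕ) : ℤ) := by
        rw [← hz]
        unfold nn
        rw [Int.natCast_natAbs, abs_of_nonneg (GaussianInt.norm_nonneg z)]
      rw [h2]
      norm_cast
    -- the general step
    have step : ∀ J : GaussianInt, J ∣ z → 1 < nn J → (2 : ℤ) ∣ J.im → TT ι hι p J → TT ι hι p z := by
      intro J hJz hJ1 hJi hJT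
      obtain ⟨w, hw⟩ := hJz
      have hN : N = nn J * nn w := by rw [← hz, hw, nn_mul]
      have hJo : nn J % 2 = 1 := by
        by_contra hne
        have : nn J * nn w % 2 = 0 := by
          rw [Nat.mul_mod]
          have : nn J % 2 = 0 := by omega
          rw [this]
          simp
        omega
      have hwo : nn w % 2 = 1 := by
        by_contra hne
        have : nn J * nn w % 2 = 0 := by
          rw [Nat.mul_mod]
          have : nn w % 2 = 0 := by omega
          rw [this]
          simp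
        omega
      have hJre : J.re % 2 = 1 := by
        have h2 := nn_eq J
        obtain ⟨j, hj⟩ := hJi
        by_contra hne
        obtain ⟨i, hi⟩ : (2 : ℤ) ∣ J.re := by omega
        rw [hi, hj] at h2
        have h3 : ((nn J : ℕ) : ℤ) = 2 * (2 * i ^ 2 + 2 * j ^ 2) := by rw [h2]; ring
        omega
      have hwi : (2 : ℤ) ∣ w.im := by
        have h2 : z.im = J.re * w.im + J.im * w.re := by rw [hw]; exact Zsqrtd.im_mul ..
        have h3 : (2 : ℤ) ∣ J.re * w.im := by
          have h4 : J.re * w.im = z.im - J.im * w.re := by rw [h2]; ring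
          rw [h4]
          exact dvd_sub hi (hJi.mul_right _)
        rcases Int.prime_two.dvd_or_dvd h3 with h4 | h4
        · omega
        · exact h4
      have hlt : nn w < N := by
        have h2 : 0 < nn w := by omega
        rw [hN]
        calc nn w = 1 * nn w := (one_mul _).symm
          _ < nn J * nn w := Nat.mul_lt_mul_of_pos_right hJ1 h2
      have hwT := ih (nn w) hlt w rfl hwo hwi fun q' hq' hd => H q' hq' (by
        rw [hN]
        exact hd.mul_left _)
      rw [hw]
      exact TT_mul ι hι J w (nn_mod hJo hJi) (nn_mod hwo hwi) hJT hwT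
    rcases (by omega : q % 4 = 1 ∨ q % 4 = 3) with h4 | h4
    · obtain ⟨A, B, hAB, hB, hT⟩ := qt_prime q hq h4
      obtain ⟨J, hJ⟩ : ∃ J : GaussianInt, J = ⟨A, B⟩ := ⟨_, rfl⟩
      have hJre : J.re = A := by rw [hJ]
      have hJim : J.im = B := by rw [hJ]
      have hnJ : nn J = q := by
        have h2 := nn_eq J
        rw [hJre, hJim, hAB] at h2
        exact_mod_cast h2
      have hJp := prime_of_nn J (by rw [hnJ]; exact hq)
      have hsre : (star J).re = A := by rw [Zsqrtd.re_star, hJre]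
      have hsim : (star J).im = -B := by rw [Zsqrtd.im_star, hJim]
      have hns : nn (star J) = q := by
        have h2 := nn_eq (star J)
        rw [hsre, hsim, neg_sq, hAB] at h2
        exact_mod_cast h2
      have hTJ : TT ι hι p J := by
        have h2 := hT p hp hp2 hpq (hq4 h4) K ι hι
        unfold TT
        rw [hnJ, gf_apply, hJre, hJim]
        exact h2
      have hTs : TT ι hι p (star J) := by
        have h2 := hT p hp hp2 hpq (hq4 h4) K (-ι) (by rw [neg_sq]; exact hι)
        unfold TT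
        rw [hns, gf_apply, hsre, hsim]
        have h3 : ((A : ℤ) : K) + ((-B : ℤ) : K) * ι = (A : K) + (B : K) * (-ι) := by
          push_cast
          ring
        rw [h3]
        exact h2
      have hdv : J ∣ z * star z := by
        rw [hznorm]
        obtain ⟨c, hc⟩ := hqN
        have h2 : (J * star J : GaussianInt) = ((q : ℕ) : GaussianInt) := by
          rw [← Zsqrtd.norm_eq_mul_conj]
          have h3 : J.norm = ((q : ℕ) : ℤ) := by
            rw [← hnJ]
            unfold nn
            rw [Int.natCast_natAbs, abs_of_nonneg (GaussianInt.norm_nonneg J)]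
          rw [h3]
          norm_cast
        rw [hc, Nat.cast_mul, ← h2, mul_assoc]
        exact dvd_mul_right _ _
      rcases hJp.dvd_or_dvd hdv with h5 | h5
      · exact step J h5 (by rw [hnJ]; exact hq.one_lt) (by rw [hJim]; exact hB) hTJ
      · exact step (star J) (star_dvd h5) (by rw [hns]; exact hq.one_lt) (by rw [hsim]; exact (dvd_neg).2 hB) hTs
    · have : Fact q.Prime := ⟨hq⟩
      have hqp : Prime (q : GaussianInt) := GaussianInt.prime_of_nat_prime_of_mod_four_eq_three q h4
      have hdv : (q : GaussianInt) ∣ z * star z := by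
        rw [hznorm]
        exact_mod_cast (Nat.cast_dvd_cast hqN : ((q : ℕ) : GaussianInt) ∣ ((N : ℕ) : GaussianInt))
      have hqz : (q : GaussianInt) ∣ z := by
        rcases hqp.dvd_or_dvd hdv with h5 | h5
        · exact h5
        · have h6 := star_dvd h5
          have h7 : star (q : GaussianInt) = (q : GaussianInt) := by
            ext <;> simp
          rwa [h7] at h6
      refine step _ hqz ?_ ?_ (TT_inert ι hι hp hp2 q hq h4 hpq)
      · have h := nn_eq (q : GaussianInt)
        have h1' : ((q : GaussianInt)).re = q := by simp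
        have h2 : ((q : GaussianInt)).im = 0 := by simp
        rw [h1', h2] at h
        have h3 : ((nn (q : GaussianInt) : ℕ) : ℤ) = ((q ^ 2 : ℕ) : ℤ) := by
          rw [h]
          push_cast
          ring
        have h5 : nn (q : GaussianInt) = q ^ 2 := by exact_mod_cast h3
        rw [h5]
        have := hq.one_lt
        nlinarith
      · simp

end

end Pool.Agent.H37.QT
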