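import Mathlib

/-!
QT Gs: quartic Gauss sums modulo a prime `q ≡ 1 mod 4` in characteristic `p`, `p` a fourth power modulo `q`.

`χ₀` a character of order 4 of `F_q` with values in `ℤ[i]`, `J₀ = J(χ₀,χ₀) = A + B i`, `A² + B² = q`, `B` even.  In an algebraically closed field
`K` of characteristic `p` with `ι² = -1`: `g⁴ = q J²`; `g^p = g` if `p ≡ 1 mod 4`, `g^(p+1) = χ(-1) q` if `p ≡ 3 mod 4`.
-/

set_option autoImplicit false

namespace Pool.Agent.H37.QT

open Finset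

/-- the homomorphism `ℤ[i] → K`, `i ↦ ι` -/
noncomputable def gf {K : Type} [Field K] (ι : K) (hι : ι ^ 2 = -1) : GaussianInt →+* K :=
  Zsqrtd.lift ⟨ι, by rw [← pow_two, hι]; push_cast; ring⟩

theorem gf_apply {K : Type} [Field K] (ι : K) (hι : ι ^ 2 = -1) (z : GaussianInt) :
    gf ι hι z = (z.re : K) + (z.im : K) * ι := rfl

private theorem root4 : IsPrimitiveRoot (⟨0, 1⟩ : GaussianInt) 4 := by
  have h4 : (⟨0, 1⟩ : GaussianInt) ^ 4 = 1 := by decide
  refine IsPrimitiveRoot.mk_of_lt _ (by norm_num) h4 ?_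
  intro l hl0 hl4
  interval_cases l <;> decide

/-- the Jacobi sum and what is needed about it -/
theorem exists_char (q : ℕ) (hq : q.Prime) (h4 : q % 4 = 1) [Fact q.Prime] :
    ∃ χ₀ : MulChar (ZMod q) GaussianInt, χ₀ ^ 4 = 1 ∧ χ₀ * χ₀ ≠ 1 ∧
      (jacobiSum χ₀ χ₀).re ^ 2 + (jacobiSum χ₀ χ₀).im ^ 2 = q ∧ (2 : ℤ) ∣ (jacobiSum χ₀ χ₀).im := by
  have hdiv : 4 ∣ Fintype.card (ZMod q) - 1 := by
    rw [ZMod.card]; omega
  obtain ⟨χ₀, hχ₀⟩ := MulChar.exists_mulChar_orderOf (ZMod q) hdiv root4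
  have hχ4 : χ₀ ^ 4 = 1 := by rw [← hχ₀]; exact pow_orderOf_eq_one χ₀
  have hχ2 : χ₀ * χ₀ ≠ 1 := by
    rw [← pow_two]
    intro h
    have := orderOf_dvd_of_pow_eq_one h
    rw [hχ₀] at this
    norm_num at this
  have hχ1 : χ₀ ≠ 1 := by
    rintro rfl
    exact hχ2 (mul_one 1)
  refine ⟨χ₀, hχ4, hχ2, ?_, ?_⟩
  · obtain ⟨φ, hφ⟩ : ∃ φ, φ = χ₀.ringHomComp GaussianInt.toComplex := ⟨_, rfl⟩
    have hinj : Function.Injective GaussianInt.toComplex := GaussianInt.toComplex_injective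
    have h1 : φ ≠ 1 := by
      rw [hφ]
      exact (MulChar.ringHomComp_ne_one_iff hinj).mpr hχ1
    have h2 : φ * φ ≠ 1 := by
      rw [hφ, ← MulChar.ringHomComp_mul]
      exact (MulChar.ringHomComp_ne_one_iff hinj).mpr hχ2
    have hch : ringChar ℂ ≠ ringChar (ZMod q) := by
      rw [ringChar.eq ℂ 0, ZMod.ringChar_zmod_n]
      exact hq.ne_zero.symm
    have h3 := jacobiSum_mul_jacobiSum_inv hch h1 h1 h2
    have h4' : jacobiSum φ⁻¹ φ⁻¹ = star (jacobiSum φ φ) := by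
      unfold jacobiSum
      rw [star_sum]
      refine Finset.sum_congr rfl fun x _ => ?_
      rw [star_mul', MulChar.star_apply', MulChar.star_apply']
    rw [h4', ZMod.card, hφ, jacobiSum_ringHomComp] at h3
    have h5 : Complex.normSq (GaussianInt.toComplex (jacobiSum χ₀ χ₀)) = q := by
      have h6 : ((Complex.normSq (GaussianInt.toComplex (jacobiSum χ₀ χ₀)) : ℝ) : ℂ)
          = ((q : ℝ) : ℂ) := by
        rw [Complex.normSq_eq_conj_mul_self, mul_comm]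
        simpa using h3
      exact_mod_cast h6
    rw [Complex.normSq_apply, ← GaussianInt.intCast_re, ← GaussianInt.intCast_im] at h5
    have h7 : (((jacobiSum χ₀ χ₀).re ^ 2 + (jacobiSum χ₀ χ₀).im ^ 2 : ℤ) : ℝ) = ((q : ℤ) : ℝ) := by
      push_cast
      nlinarith [h5]
    exact_mod_cast h7
  · obtain ⟨z, _, hz⟩ := exists_jacobiSum_eq_neg_one_add (n := 4) (by norm_num) hχ4 hχ4 hdiv root4
    have h1 : ((⟨0, 1⟩ : GaussianInt) - 1) ^ 2 = ⟨0, -2⟩ := by decide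
    rw [hz, h1]
    refine ⟨- z.re, ?_⟩
    simp [Zsqrtd.im_add, Zsqrtd.im_mul]
    ring

/-- `χ(-1)` for a character of order 4 with values in a field -/
theorem chi_neg_one {K : Type} [Field K] (q : ℕ) (h4 : q % 4 = 1) [Fact q.Prime] (χ : MulChar (ZMod q) K)
    (hc4 : χ ^ 4 = 1) (hcc : χ * χ ≠ 1) : χ (-1) = (-1) ^ ((q - 1) / 4) := by
  have hq : q.Prime := Fact.out
  obtain ⟨g, hg⟩ := IsCyclic.exists_generator (α := (ZMod q)ˣ)
  have hord : orderOf g = q - 1 := by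
    rw [orderOf_eq_card_of_forall_mem_zpowers hg, Nat.card_eq_fintype_card,
      ZMod.card_units]
  have hpow : ∀ a : (ZMod q)ˣ, ∃ k : ℕ, g ^ k = a := by
    intro a
    obtain ⟨k, hk⟩ := (mem_powers_iff_mem_zpowers).mpr (hg a)
    exact ⟨k, hk⟩
  have hg4 : (χ (g : ZMod q)) ^ 4 = 1 := by
    rw [← MulChar.pow_apply_coe, hc4, MulChar.one_apply_coe]
  have hg2 : (χ (g : ZMod q)) ^ 2 = -1 := by
    have h1 : ((χ (g : ZMod q)) ^ 2) ^ 2 = 1 := by rw [← pow_mul]; exact hg4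
    rcases sq_eq_one_iff.mp h1 with h | h
    · exfalso
      apply hcc
      refine MulChar.ext fun a => ?_
      obtain ⟨k, rfl⟩ := hpow a
      rw [MulChar.one_apply_coe, MulChar.mul_apply, Units.val_pow_eq_pow_val, map_pow, ← mul_pow, ← pow_two, h, one_pow]
    · exact h
  have hm : ((g ^ ((q - 1) / 2) : (ZMod q)ˣ) : ZMod q) = -1 := by
    have h1 : ((g ^ ((q - 1) / 2) : (ZMod q)ˣ) : ZMod q) ^ 2 = 1 := by
      rw [← Units.val_pow_eq_pow_val, ← pow_mul]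
      have h2 : (q - 1) / 2 * 2 = q - 1 := by omega
      rw [h2, ← hord, pow_orderOf_eq_one]
      rfl
    rcases sq_eq_one_iff.mp h1 with h | h
    · exfalso
      have h3 : g ^ ((q - 1) / 2) = 1 := Units.ext (by rw [h]; rfl)
      have h5 := orderOf_dvd_of_pow_eq_one h3
      rw [hord] at h5
      have h6 := hq.two_le
      have h7 : 0 < (q - 1) / 2 := by omega
      have := Nat.le_of_dvd h7 h5
      omega
    · exact h
  rw [← hm, Units.val_pow_eq_pow_val, map_pow]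
  have h8 : (q - 1) / 2 = 2 * ((q - 1) / 4) := by omega
  rw [h8, pow_mul, hg2]

theorem qt_prime (q : ℕ) (hq : q.Prime) (h4 : q % 4 = 1) : ∃ A B : ℤ, A ^ 2 + B ^ 2 = q ∧ (2 : ℤ) ∣ B ∧
    ∀ p : ℕ, p.Prime → p ≠ 2 → p ≠ q → (∃ y : ZMod q, ((p : ℕ) : ZMod q) = y ^ 4) →
      ∀ (K : Type) [Field K] [CharP K p] [IsAlgClosed K] (ι : K), ι ^ 2 = -1 →
        (p % 4 = 1 → ((A : K) + (B : K) * ι) ^ ((p - 1) / 2) * (q : K) ^ ((p - 1) / 4) = 1) ∧
        (p % 4 = 3 → ((A : K) + (B : K) * ι) ^ ((p + 1) / 2) * (q : K) ^ ((p - 3) / 4) = (-1) ^ ((q - 1) / 4)) := by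
  have hfq : Fact q.Prime := ⟨hq⟩
  obtain ⟨χ₀, hχ4, hχ2, hn, him⟩ := exists_char q hq h4
  refine ⟨(jacobiSum χ₀ χ₀).re, (jacobiSum χ₀ χ₀).im, hn, him, ?_⟩
  intro p hp hp2 hpq hy K _ _ _ ι hι
  have hfp : Fact p.Prime := ⟨hp⟩
  obtain ⟨y, hy⟩ := hy
  have hqK : (q : K) ≠ 0 := by
    intro h
    rw [CharP.cast_eq_zero_iff K p] at h
    exact hpq ((Nat.prime_dvd_prime_iff_eq hp hq).mp h)
  have : NeZero (q : K) := ⟨hqK⟩
  obtain ⟨ζ, hζ⟩ := HasEnoughRootsOfUnity.exists_primitiveRoot K q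
  have hprim := AddChar.zmodChar_primitive_of_primitive_root q hζ
  obtain ⟨ψ, hψ⟩ : ∃ ψ : AddChar (ZMod q) K, ψ = AddChar.zmodChar q ((IsPrimitiveRoot.iff_def ζ q).mp hζ).left := ⟨_, rfl⟩
  rw [← hψ] at hprim
  obtain ⟨χ, hχ⟩ : ∃ χ : MulChar (ZMod q) K, χ = χ₀.ringHomComp (gf ι hι) := ⟨_, rfl⟩
  have hJ : jacobiSum χ χ = gf ι hι (jacobiSum χ₀ χ₀) := by
    rw [hχ, jacobiSum_ringHomComp]
  have hneg : (-1 : K) ≠ 1 := by
    intro h
    have h2 : (2 : K) = 0 := by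
      rw [← one_add_one_eq_two]
      nth_rewrite 2 [← h]
      exact add_neg_cancel 1
    have h3 : ((2 : ℕ) : K) = 0 := by exact_mod_cast h2
    rw [CharP.cast_eq_zero_iff K p] at h3
    exact hp2 ((Nat.prime_dvd_prime_iff_eq hp Nat.prime_two).mp h3)
  have hc4 : χ ^ 4 = 1 := by
    rw [hχ, MulChar.ringHomComp_pow, hχ4]
    exact MulChar.ringHomComp_one _
  have hcc : χ * χ ≠ 1 := by
    obtain ⟨a, ha⟩ := MulChar.ne_one_iff.mp hχ2
    intro h
    have h1 : (χ * χ) a = 1 := by rw [h]; exact MulChar.one_apply_coe a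
    have h2 : ((χ₀ * χ₀) a) ^ 2 = 1 := by
      have h3 : (χ₀ ^ 4) a = 1 := by rw [hχ4]; exact MulChar.one_apply_coe a
      rw [MulChar.pow_apply_coe] at h3
      rw [MulChar.mul_apply]
      rw [← h3]; ring
    have h5 : (χ₀ * χ₀) a = -1 := by
      rcases sq_eq_one_iff.mp h2 with h | h
      · exact absurd h ha
      · exact h
    have h6 : (χ * χ) a = gf ι hι ((χ₀ * χ₀) a) := by
      rw [hχ, ← MulChar.ringHomComp_mul]; rfl
    rw [h6, h5, map_neg, map_one] at h1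
    exact hneg h1
  have hc1 : χ ≠ 1 := by
    intro h
    rw [h] at hcc
    exact hcc (mul_one 1)
  have hquad : (χ * χ).IsQuadratic := by
    rw [MulChar.isQuadratic_iff_sq_eq_one, ← pow_two, ← pow_mul]
    exact hc4
  obtain ⟨g, hg⟩ : ∃ g : K, g = gaussSum χ ψ := ⟨_, rfl⟩
  have hg2 : gaussSum (χ * χ) ψ ^ 2 = (q : K) := by
    rw [gaussSum_sq hcc hquad hprim, ZMod.card, MulChar.mul_apply, ← map_mul]
    simp
  have hgg := jacobiSum_mul_nontrivial hcc ψ
  have hg4 : g ^ 4 = (q : K) * (jacobiSum χ χ) ^ 2 := by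
    have h1 : g ^ 4 = (g * g) ^ 2 := by ring
    rw [h1, hg, ← hgg, mul_pow, hg2]
  have hg0 : g ≠ 0 := by
    rw [hg]
    apply gaussSum_ne_zero_of_nontrivial _ hc1 hprim
    rw [ZMod.card]
    exact hqK
  have hpu : IsUnit ((p : ℕ) : ZMod q) := by
    rw [isUnit_iff_ne_zero]
    intro h
    rw [ZMod.natCast_eq_zero_iff] at h
    exact hpq ((Nat.prime_dvd_prime_iff_eq hq hp).mp h).symm
  have hy0 : IsUnit y := by
    rw [hy] at hpu
    exact (isUnit_pow_iff (by norm_num)).1 hpu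
  have hχp : χ ((p : ℕ) : ZMod q) = 1 := by
    rw [hy, map_pow, ← hy0.unit_spec, ← MulChar.pow_apply_coe, hc4]
    exact MulChar.one_apply_coe _
  have hfrob : g ^ p = gaussSum (χ ^ p) ψ := by
    have h1 := gaussSum_frob p χ ψ
    rw [AddChar.pow_mulShift] at h1
    have h2 := gaussSum_mulShift (χ ^ p) ψ hpu.unit
    have h3 : (χ ^ p) (hpu.unit : ZMod q) = 1 := by
      rw [MulChar.pow_apply_coe, hpu.unit_spec, hχp, one_pow]
    rw [h3, one_mul, hpu.unit_spec] at h2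
    rw [hg, h1, h2]
  have hJe : jacobiSum χ χ = ((jacobiSum χ₀ χ₀).re : K) + ((jacobiSum χ₀ χ₀).im : K) * ι := by
    rw [hJ, gf_apply]
  rw [← hJe]
  constructor
  · intro hp4
    have hcp : χ ^ p = χ := by
      have h1 : p = 4 * (p / 4) + 1 := by omega
      have h2 : χ ^ p = χ ^ (4 * (p / 4) + 1) := congrArg (fun k => χ ^ k) h1
      rw [h2, pow_add, pow_mul, hc4, one_pow, one_mul, pow_one]
    rw [hcp, ← hg] at hfrob
    have hg1 : g ^ (p - 1) = 1 := by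
      have h1 : g ^ (p - 1) * g = 1 * g := by
        rw [← pow_succ, Nat.sub_add_cancel hp.one_le, hfrob, one_mul]
      exact mul_right_cancel₀ hg0 h1
    have h2 : p - 1 = 4 * ((p - 1) / 4) := by omega
    have h3 : (p - 1) / 2 = 2 * ((p - 1) / 4) := by omega
    rw [h3, pow_mul, ← mul_pow, mul_comm, ← hg4, ← pow_mul, ← h2, hg1]
  · intro hp4
    have hcp : χ ^ p = χ ^ 3 := by
      have h1 : p = 4 * (p / 4) + 3 := by omega
      have h2 : χ ^ p = χ ^ (4 * (p / 4) + 3) := congrArg (fun k => χ ^ k) h1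
      rw [h2, pow_add, pow_mul, hc4, one_pow, one_mul]
    rw [hcp] at hfrob
    have hordχ : orderOf χ = 4 := by
      have h1 : orderOf χ ∣ 2 ^ 2 := orderOf_dvd_of_pow_eq_one (by norm_num; exact hc4)
      have h2 : ¬ orderOf χ ∣ 2 ^ 1 := by
        intro h
        apply hcc
        rw [← pow_two]
        exact orderOf_dvd_iff_pow_eq_one.1 (by simpa using h)
      have h3 := (Nat.dvd_prime_pow Nat.prime_two).1 h1
      obtain ⟨k, hk, hk2⟩ := h3
      have h5 : k = 2 := by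
        by_contra hne
        apply h2
        rw [hk2]
        exact pow_dvd_pow 2 (by omega)
      rw [hk2, h5]
      norm_num
    have h1 := gaussSum_mul_gaussSum_pow_orderOf_sub_one hc1 hprim
    rw [hordχ] at h1
    have h2 : g ^ (p + 1) = χ (-1) * (q : K) := by
      rw [pow_succ, hfrob, mul_comm, hg]
      have h3 : (4 - 1 : ℕ) = 3 := by norm_num
      rw [h3, ZMod.card] at h1
      exact h1
    have h3 : p + 1 = 4 * ((p + 1) / 4) := by omega
    have h5 : (p + 1) / 2 = 2 * ((p + 1) / 4) := by omega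
    have h6 : (p + 1) / 4 = (p - 3) / 4 + 1 := by omega
    have h7 : ((q : K) * jacobiSum χ χ ^ 2) ^ ((p + 1) / 4) = χ (-1) * (q : K) := by
      rw [← hg4, ← pow_mul, ← h3, h2]
    have h8 : jacobiSum χ χ ^ ((p + 1) / 2) * (q : K) ^ ((p - 3) / 4) * (q : K) = χ (-1) * (q : K) := by
      rw [← h7, h5, pow_mul, mul_pow, mul_assoc, ← pow_succ, ← h6]
      ring
    have h9 := mul_right_cancel₀ hqK h8
    rw [h9, chi_neg_one q h4 χ hc4 hcc]

end Pool.Agent.H37.QT
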