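import Pool.Agent.H37.QT.Gi

/-!
QT Sq: `v = a² + b²`, `b` even, `v ≡ 1 mod p`, `p` a fourth power modulo every prime `q ≡ 1 mod 4` dividing `v`: then
`(-1)^((v-1)/4) 2(a+1)` is a square modulo `p`.
-/

set_option autoImplicit false

namespace Pool.Agent.H37.QT

theorem nn_mk (a b : ℤ) (v : ℕ) (h : a ^ 2 + b ^ 2 = v) : nn (⟨a, b⟩ : GaussianInt) = v := by
  have h2 := nn_eq (⟨a, b⟩ : GaussianInt)
  have h3 : ((nn (⟨a, b⟩ : GaussianInt) : ℕ) : ℤ) = (v : ℤ) := by rw [h2]; exact h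
  exact_mod_cast h3

/-- hypotheses of the product formula for `a + b i` -/
theorem odd_of_rep {a b : ℤ} {v : ℕ} (h : a ^ 2 + b ^ 2 = v) (ho : v % 2 = 1) (hb : (2 : ℤ) ∣ b) : v % 4 = 1 := by
  have h1 := nn_mod (z := (⟨a, b⟩ : GaussianInt)) (by rw [nn_mk a b v h]; exact ho) hb
  rwa [nn_mk a b v h] at h1

theorem sq_one (p v : ℕ) (a b : ℤ) (hp : p.Prime) (hp1 : p % 4 = 1) (h : a ^ 2 + b ^ 2 = v) (hvo : v % 2 = 1)
    (hb : (2 : ℤ) ∣ b) (hv : ((v : ℕ) : ZMod p) = 1)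
    (H : ∀ q : ℕ, q.Prime → q ∣ v → p ≠ q ∧ (q % 4 = 1 → ∃ y : ZMod q, ((p : ℕ) : ZMod q) = y ^ 4)) :
    IsSquare ((-1 : ZMod p) ^ ((v - 1) / 4) * (2 * ((a : ZMod p) + 1))) := by
  have hfp : Fact p.Prime := ⟨hp⟩
  have hp2 : p ≠ 2 := by rintro rfl; norm_num at hp1
  obtain ⟨i₀, hi₀⟩ := (ZMod.exists_sq_eq_neg_one_iff (p := p)).2 (by omega)
  have hi : i₀ ^ 2 = -1 := by rw [hi₀, pow_two]
  let K := AlgebraicClosure (ZMod p)
  have hchar : CharP K p := charP_of_injective_algebraMap (algebraMap (ZMod p) K).injective p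
  have hι : (algebraMap (ZMod p) K i₀) ^ 2 = -1 := by rw [← map_pow, hi, map_neg, map_one]
  have hT := TT_all (K := K) (algebraMap (ZMod p) K i₀) hι hp hp2 v (⟨a, b⟩ : GaussianInt) (nn_mk a b v h) hvo hb H
  have h1 := hT.1 hp1
  rw [nn_mk a b v h, gf_apply] at h1
  have hvK : ((v : ℕ) : K) = 1 := by
    have := congrArg (algebraMap (ZMod p) K) hv
    rwa [map_natCast, map_one] at this
  rw [hvK, one_pow, mul_one] at h1
  obtain ⟨t, ht⟩ : ∃ t : ZMod p, t = (a : ZMod p) + (b : ZMod p) * i₀ := ⟨_, rfl⟩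
  have h2 : t ^ (p / 2) = 1 := by
    apply (algebraMap (ZMod p) K).injective
    have e : p / 2 = (p - 1) / 2 := by omega
    rw [e, map_pow, ht, map_add, map_mul, map_intCast, map_intCast, map_one]
    exact h1
  have ht0 : t ≠ 0 := by
    intro h0
    rw [h0, zero_pow] at h2
    · exact zero_ne_one h2
    · have := hp.two_le
      omega
  obtain ⟨w, hw⟩ := (ZMod.euler_criterion p ht0).2 h2
  have hw0 : w ≠ 0 := by
    rintro rfl
    apply ht0
    rw [hw, mul_zero]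
  have hab : (a : ZMod p) ^ 2 + (b : ZMod p) ^ 2 = 1 := by
    rw [← hv]
    exact_mod_cast congrArg (Int.cast : ℤ → ZMod p) h
  have htt : t * ((a : ZMod p) - (b : ZMod p) * i₀) = 1 := by
    rw [ht]
    linear_combination hab - (b : ZMod p) ^ 2 * hi
  have hti : t⁻¹ = (a : ZMod p) - (b : ZMod p) * i₀ := by
    exact inv_eq_of_mul_eq_one_right htt
  have h3 : (2 * ((a : ZMod p) + 1)) = (w + w⁻¹) ^ 2 := by
    have h4 : (w + w⁻¹) ^ 2 = t + t⁻¹ + 2 := by
      rw [hw]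
      field_simp
      ring
    rw [h4, hti, ht]
    ring
  have h5 : IsSquare ((-1 : ZMod p) ^ ((v - 1) / 4)) := by
    have : IsSquare (-1 : ZMod p) := ⟨i₀, by rw [← pow_two, hi]⟩
    exact this.pow _
  rw [h3]
  exact h5.mul ⟨w + w⁻¹, by ring⟩

theorem sq_three (p v : ℕ) (a b : ℤ) (hp : p.Prime) (hp3 : p % 4 = 3) (h : a ^ 2 + b ^ 2 = v) (hvo : v % 2 = 1)
    (hb : (2 : ℤ) ∣ b) (hv : ((v : ℕ) : ZMod p) = 1)
    (H : ∀ q : ℕ, q.Prime → q ∣ v → p ≠ q ∧ (q % 4 = 1 → ∃ y : ZMod q, ((p : ℕ) : ZMod q) = y ^ 4)) :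
    IsSquare ((-1 : ZMod p) ^ ((v - 1) / 4) * (2 * ((a : ZMod p) + 1))) := by
  have hfp : Fact p.Prime := ⟨hp⟩
  have hp2 : p ≠ 2 := by rintro rfl; norm_num at hp3
  let K := AlgebraicClosure (ZMod p)
  have hchar : CharP K p := charP_of_injective_algebraMap (algebraMap (ZMod p) K).injective p
  obtain ⟨ι, hι'⟩ := IsAlgClosed.exists_pow_nat_eq (-1 : K) (n := 2) (by norm_num)
  have hι : ι ^ 2 = -1 := hι'
  have hT := TT_all (K := K) ι hι hp hp2 v (⟨a, b⟩ : GaussianInt) (nn_mk a b v h) hvo hb H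
  have h1 := hT.2 hp3
  rw [nn_mk a b v h, gf_apply] at h1
  have hvK : ((v : ℕ) : K) = 1 := by
    have := congrArg (algebraMap (ZMod p) K) hv
    rwa [map_natCast, map_one] at this
  rw [hvK, one_pow, mul_one] at h1
  obtain ⟨t, ht⟩ : ∃ t : K, t = (a : K) + (b : K) * ι := ⟨_, rfl⟩
  have h1' : t ^ ((p + 1) / 2) = (-1) ^ ((v - 1) / 4) := by rw [ht]; exact h1
  -- Frobenius
  have hιp : ι ^ p = -ι := by
    have e : p = 2 * (2 * (p / 4) + 1) + 1 := by omega
    have h2 : ι ^ p = ι ^ (2 * (2 * (p / 4) + 1) + 1) := congrArg (fun k => ι ^ k) e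
    rw [h2, pow_succ, pow_mul, hι, pow_succ, pow_mul, neg_one_sq, one_pow, one_mul, neg_one_mul]
  have hap : ∀ x : ℤ, (x : K) ^ p = x := by
    intro x
    have := map_intCast (frobenius K p) x
    rwa [frobenius_def] at this
  have htp : t ^ p = (a : K) - (b : K) * ι := by
    have h2 : t ^ p = frobenius K p t := (frobenius_def p t).symm
    rw [h2, ht, map_add, map_mul, frobenius_def, frobenius_def, frobenius_def, hap, hap, hιp]
    ring
  have hab : (a : K) ^ 2 + (b : K) ^ 2 = 1 := by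
    rw [← hvK]
    exact_mod_cast congrArg (Int.cast : ℤ → K) h
  have htt : t * ((a : K) - (b : K) * ι) = 1 := by
    rw [ht]
    linear_combination hab - (b : K) ^ 2 * hι
  obtain ⟨c, hc⟩ : ∃ c : ZMod p, c = 2 * ((a : ZMod p) + 1) := ⟨_, rfl⟩
  have hcK : algebraMap (ZMod p) K c = 2 * ((a : K) + 1) := by
    rw [hc, map_mul, map_add, map_intCast, map_one, map_ofNat]
  rw [← hc]
  by_cases hc0 : c = 0
  · rw [hc0, mul_zero]
    exact ⟨0, by ring⟩
  have hcK0 : algebraMap (ZMod p) K c ≠ 0 := by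
    intro h0
    exact hc0 ((algebraMap (ZMod p) K).injective (by rw [h0, map_zero]))
  have e1 : (t + 1) ^ 2 = algebraMap (ZMod p) K c * t := by
    rw [hcK]
    have h3 : t * ((a : K) - (b : K) * ι) = 1 := htt
    have h4 : (a : K) - (b : K) * ι = 2 * (a : K) - t := by rw [ht]; ring
    rw [h4] at h3
    linear_combination -h3
  have e2 : (t + 1) ^ (p + 1) = algebraMap (ZMod p) K c := by
    have h3 : (t + 1) ^ p = t ^ p + 1 := by
      have h4 : (t + 1) ^ p = frobenius K p (t + 1) := (frobenius_def p (t + 1)).symm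
      rw [h4, map_add, frobenius_def, frobenius_def, one_pow]
    rw [pow_succ, h3, htp, hcK]
    have h4 : ((a : K) - (b : K) * ι + 1) * (t + 1) = t * ((a : K) - (b : K) * ι) + t + ((a : K) - (b : K) * ι) + 1 := by ring
    rw [h4, htt, ht]
    ring
  have e3 : algebraMap (ZMod p) K c = (algebraMap (ZMod p) K c) ^ ((p + 1) / 2) * (-1) ^ ((v - 1) / 4) := by
    have h3 : (t + 1) ^ (p + 1) = ((t + 1) ^ 2) ^ ((p + 1) / 2) := by
      rw [← pow_mul]
      congr 1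
      omega
    rw [e2, e1, mul_pow, h1'] at h3
    exact h3
  have e4 : (algebraMap (ZMod p) K c) ^ (p / 2) * (-1) ^ ((v - 1) / 4) = 1 := by
    have h3 : (p + 1) / 2 = p / 2 + 1 := by omega
    rw [h3, pow_succ] at e3
    apply mul_right_cancel₀ hcK0
    linear_combination -e3
  have e5 : c ^ (p / 2) * (-1) ^ ((v - 1) / 4) = 1 := by
    apply (algebraMap (ZMod p) K).injective
    rw [map_mul, map_pow, map_pow, map_neg, map_one]
    exact e4
  have hne : (-1 : ZMod p) ^ ((v - 1) / 4) * c ≠ 0 := by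
    refine mul_ne_zero (pow_ne_zero _ ?_) hc0
    exact neg_ne_zero.2 one_ne_zero
  rw [ZMod.euler_criterion p hne, mul_pow, ← pow_mul]
  have e6 : ((-1 : ZMod p)) ^ ((v - 1) / 4 * (p / 2)) = (-1) ^ ((v - 1) / 4) := by
    have h3 : p / 2 = 2 * (p / 4) + 1 := by omega
    rw [h3, mul_add, pow_add, mul_one, mul_comm ((v - 1) / 4) (2 * (p / 4)), mul_assoc, pow_mul, neg_one_sq, one_pow,
      one_mul]
  rw [e6, mul_comm]
  exact e5

end Pool.Agent.H37.QT
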