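import Pool.Agent.H37.QT.Sq
import Pool.Agent.H37.PV.Pow

/-!
QT Test: the biquadratic test for orders of planar cyclic difference sets, and two explicit families of excluded orders.
-/

set_option autoImplicit false

namespace Pool.Agent.H37.QT

open Pool.Agent.H37.PPC Pool.Agent.H37.PV

/-- if no power of `p` is `-1` modulo `q` then `p` is a fourth power modulo `q` -/
theorem fourth_power {p q : ℕ} (hp : p.Prime) (hq : q.Prime) (hpq : p ≠ q)
    (h : ∀ k : ℕ, (p : ZMod q) ^ k ≠ -1) : ∃ y : ZMod q, ((p : ℕ) : ZMod q) = y ^ 4 := by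
  have hfq : Fact q.Prime := ⟨hq⟩
  have hx0 : ((p : ℕ) : ZMod q) ≠ 0 := by
    intro h0
    rw [ZMod.natCast_eq_zero_iff] at h0
    exact hpq ((Nat.prime_dvd_prime_iff_eq hq hp).mp h0).symm
  obtain ⟨x, hx⟩ : ∃ x : ZMod q, x = ((p : ℕ) : ZMod q) := ⟨_, rfl⟩
  rw [← hx] at hx0 ⊢
  have h' : ∀ k : ℕ, x ^ k ≠ -1 := by rw [hx]; exact h
  have hpos : 0 < orderOf x := by
    rw [orderOf_pos_iff]
    exact isOfFinOrder_iff_pow_eq_one.2 ⟨q - 1, by have := hq.two_le; omega, ZMod.pow_card_sub_one_eq_one hx0⟩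
  have hodd : orderOf x % 2 = 1 := by
    by_contra hne
    obtain ⟨r, hr⟩ : ∃ r, orderOf x = 2 * r := ⟨orderOf x / 2, by omega⟩
    have h1 : (x ^ r) ^ 2 = 1 := by
      rw [← pow_mul, mul_comm r 2, ← hr, pow_orderOf_eq_one]
    rcases sq_eq_one_iff.mp h1 with h2 | h2
    · have h3 := orderOf_dvd_of_pow_eq_one h2
      have h4 := Nat.le_of_dvd (by omega) h3
      omega
    · exact h' r h2
  have hone : x ^ orderOf x = 1 := pow_orderOf_eq_one x
  rcases (by omega : orderOf x % 4 = 1 ∨ orderOf x % 4 = 3) with h4 | h4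
  · refine ⟨x ^ ((3 * orderOf x + 1) / 4), ?_⟩
    have e : (3 * orderOf x + 1) / 4 * 4 = orderOf x * 3 + 1 := by omega
    rw [← pow_mul, e, pow_succ, pow_mul, hone, one_pow, one_mul]
  · refine ⟨x ^ ((orderOf x + 1) / 4), ?_⟩
    have e : (orderOf x + 1) / 4 * 4 = orderOf x + 1 := by omega
    rw [← pow_mul, e, pow_succ, hone, one_mul]

/-- the biquadratic test -/
theorem test {m : ℕ} (hm : 2 ≤ m) (hsq : ¬ IsSquare m) (hbad : Bad m) (a b : ℤ) (hb : (2 : ℤ) ∣ b)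
    (hab : a ^ 2 + b ^ 2 = (m : ℤ) ^ 2 + m + 1) (p : ℕ) (hp : p.Prime) (hp2 : p ≠ 2) (hpm : p ∣ m) :
    IsSquare ((-1 : ZMod p) ^ ((m ^ 2 + m) / 4) * (2 * ((a : ZMod p) + 1))) := by
  have hM := mg_of_bad hm hsq hbad
  have hab' : a ^ 2 + b ^ 2 = ((m ^ 2 + m + 1 : ℕ) : ℤ) := by rw [hab]; push_cast; ring
  have hvo : (m ^ 2 + m + 1) % 2 = 1 := by
    have h1 : m ^ 2 + m = m * (m + 1) := by ring
    have h2 : Even (m * (m + 1)) := Nat.even_mul_succ_self m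
    rw [← h1] at h2
    obtain ⟨r, hr⟩ := h2
    omega
  have hv : (((m ^ 2 + m + 1 : ℕ)) : ZMod p) = 1 := by
    have h1 : ((m : ℕ) : ZMod p) = 0 := (ZMod.natCast_eq_zero_iff m p).2 hpm
    push_cast
    rw [h1]
    ring
  have H : ∀ q : ℕ, q.Prime → q ∣ m ^ 2 + m + 1 →
      p ≠ q ∧ (q % 4 = 1 → ∃ y : ZMod q, ((p : ℕ) : ZMod q) = y ^ 4) := by
    intro q hq hqv
    have hpq : p ≠ q := by
      rintro rfl
      have h1 : p ∣ m ^ 2 + m := by
        have : m ^ 2 + m = m * (m + 1) := by ring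
        rw [this]
        exact hpm.mul_right _
      have h2 := (Nat.dvd_add_right h1).1 hqv
      exact hp.one_lt.ne' (Nat.dvd_one.1 h2)
    exact ⟨hpq, fun _ => fourth_power hp hq hpq (hM p q hp hpm hq hqv)⟩
  have e : (m ^ 2 + m + 1 - 1) / 4 = (m ^ 2 + m) / 4 := by rw [Nat.add_sub_cancel]
  rcases hp.eq_two_or_odd with h | h
  · exact absurd h hp2
  rcases (by omega : p % 4 = 1 ∨ p % 4 = 3) with h4 | h4
  · have := sq_one p (m ^ 2 + m + 1) a b hp h4 hab' hvo hb hv H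
    rwa [e] at this
  · have := sq_three p (m ^ 2 + m + 1) a b hp h4 hab' hvo hb hv H
    rwa [e] at this

/-- numbers all of whose prime factors are `±1 mod 8` -/
theorem mod8_a (n : ℕ) (hn : n ≠ 0) (h : ∀ p : ℕ, p.Prime → p ∣ n → p % 8 = 1 ∨ p % 8 = 7) : n % 8 = 1 ∨ n % 8 = 7 := by
  induction n using Nat.recOnMul with
  | zero => exact absurd rfl hn
  | one => left; norm_num
  | prime p hp => exact h p hp dvd_rfl
  | mul x y hx hy =>
    have hx0 : x ≠ 0 := by rintro rfl; exact hn (zero_mul y)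
    have hy0 : y ≠ 0 := by rintro rfl; exact hn (mul_zero x)
    have h1 := hx hx0 fun p hp hd => h p hp (hd.mul_right y)
    have h2 := hy hy0 fun p hp hd => h p hp (hd.mul_left x)
    rw [Nat.mul_mod]
    rcases h1 with h1 | h1 <;> rcases h2 with h2 | h2 <;> rw [h1, h2] <;> simp

/-- numbers all of whose prime factors are `1` or `3 mod 8` -/
theorem mod8_b (n : ℕ) (hn : n ≠ 0) (h : ∀ p : ℕ, p.Prime → p ∣ n → p % 8 = 1 ∨ p % 8 = 3) : n % 8 = 1 ∨ n % 8 = 3 := by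
  induction n using Nat.recOnMul with
  | zero => exact absurd rfl hn
  | one => left; norm_num
  | prime p hp => exact h p hp dvd_rfl
  | mul x y hx hy =>
    have hx0 : x ≠ 0 := by rintro rfl; exact hn (zero_mul y)
    have hy0 : y ≠ 0 := by rintro rfl; exact hn (mul_zero x)
    have h1 := hx hx0 fun p hp hd => h p hp (hd.mul_right y)
    have h2 := hy hy0 fun p hp hd => h p hp (hd.mul_left x)
    rw [Nat.mul_mod]
    rcases h1 with h1 | h1 <;> rcases h2 with h2 | h2 <;> rw [h1, h2] <;> simp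

theorem sq_sub_one_not_square (s : ℕ) (hs : 2 ≤ s) : ¬ IsSquare (s ^ 2 - 1) := by
  rintro ⟨t, ht⟩
  have h1 : 1 ≤ s ^ 2 := Nat.one_le_pow _ _ (by omega)
  have h2 : t * t + 1 = s ^ 2 := by omega
  have h3 : t < s := by nlinarith
  nlinarith

/-- the primes dividing `s ^ 2 - 1`, `s` even -/
theorem family (s : ℕ) (hs : 2 ≤ s) (he : s % 2 = 0) (hbad : Bad (s ^ 2 - 1)) (p : ℕ) (hp : p.Prime)
    (hpm : p ∣ s ^ 2 - 1) : (s % 4 = 0 → p % 8 = 1 ∨ p % 8 = 7) ∧ (s % 4 = 2 → p % 8 = 1 ∨ p % 8 = 3) := by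
  have hfp : Fact p.Prime := ⟨hp⟩
  obtain ⟨j, hj⟩ : ∃ j, s = 2 * j := ⟨s / 2, by omega⟩
  have h1 : 1 ≤ s ^ 2 := Nat.one_le_pow _ _ (by omega)
  obtain ⟨m, hm⟩ : ∃ m, m = s ^ 2 - 1 := ⟨_, rfl⟩
  have hms : m + 1 = s ^ 2 := by omega
  have hm2 : 2 ≤ m := by
    have : 2 ^ 2 ≤ s ^ 2 := Nat.pow_le_pow_left hs 2
    omega
  have hp2 : p ≠ 2 := by
    rintro rfl
    rw [← hm] at hpm
    obtain ⟨i, hi⟩ := hpm
    have h2 : s ^ 2 = 2 * (2 * j ^ 2) := by rw [hj]; ring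
    omega
  rw [← hm] at hpm hbad
  have hsq : ¬ IsSquare m := by
    rw [hm]
    exact sq_sub_one_not_square s hs
  have hmz : ((m : ℤ)) + 1 = (s : ℤ) ^ 2 := by exact_mod_cast hms
  have ht := test hm2 hsq hbad (m : ℤ) (s : ℤ) (by omega) (by linear_combination -hmz) p hp hp2 hpm
  have hmp : ((m : ℕ) : ZMod p) = 0 := (ZMod.natCast_eq_zero_iff m p).2 hpm
  have he1 : (((m : ℤ)) : ZMod p) = 0 := by exact_mod_cast hmp
  rw [he1, zero_add, mul_one] at ht
  have he2 : (m ^ 2 + m) / 4 = m * j ^ 2 := by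
    have h2 : m ^ 2 + m = 4 * (m * j ^ 2) := by
      have h3 : m ^ 2 + m = m * (m + 1) := by ring
      rw [h3, hms, hj]
      ring
    rw [h2]
    omega
  have hmo : m % 2 = 1 := by
    have h2 : s ^ 2 = 2 * (2 * j ^ 2) := by rw [hj]; ring
    omega
  rw [he2] at ht
  constructor
  · intro h4
    have h5 : (-1 : ZMod p) ^ (m * j ^ 2) = 1 := by
      have h6 : Even (m * j ^ 2) := by
        obtain ⟨i, hi⟩ : ∃ i, j = 2 * i := ⟨j / 2, by omega⟩
        rw [hi]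
        exact ⟨m * (2 * i ^ 2), by ring⟩
      exact h6.neg_one_pow
    rw [h5, one_mul] at ht
    exact (ZMod.exists_sq_eq_two_iff hp2).1 ht
  · intro h4
    have h5 : (-1 : ZMod p) ^ (m * j ^ 2) = -1 := by
      have h6 : Odd (m * j ^ 2) := by
        refine Odd.mul (Nat.odd_iff.2 hmo) (Odd.pow (Nat.odd_iff.2 (by omega)))
      exact h6.neg_one_pow
    rw [h5, neg_one_mul] at ht
    exact (ZMod.exists_sq_eq_neg_two_iff hp2).1 ht

/-- `s ≡ 4, 6 mod 8` -/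
theorem excluded (s : ℕ) (h : s % 8 = 4 ∨ s % 8 = 6) : ¬ Bad (s ^ 2 - 1) := by
  intro hbad
  have hs : 2 ≤ s := by omega
  have hd : s - 1 ∣ s ^ 2 - 1 := by
    refine ⟨s + 1, ?_⟩
    obtain ⟨t, rfl⟩ : ∃ t, s = t + 1 := ⟨s - 1, by omega⟩
    rw [Nat.add_sub_cancel]
    have : (t + 1) ^ 2 = t * (t + 1 + 1) + 1 := by ring
    omega
  rcases h with h | h
  · have := mod8_a (s - 1) (by omega) fun p hp hpd =>
      (family s hs (by omega) hbad p hp (hpd.trans hd)).1 (by omega)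
    omega
  · have := mod8_b (s - 1) (by omega) fun p hp hpd =>
      (family s hs (by omega) hbad p hp (hpd.trans hd)).2 (by omega)
    omega

/-- the numbers `3 t ^ 2`, `t` odd -/
theorem family3 (t : ℕ) (ho : t % 2 = 1) (hbad : Bad (3 * t ^ 2)) (p : ℕ) (hp : p.Prime) (hpt : p ∣ t) :
    p % 8 = 1 ∨ p % 8 = 3 := by
  have hfp : Fact p.Prime := ⟨hp⟩
  obtain ⟨j, hj⟩ : ∃ j, t = 2 * j + 1 := ⟨t / 2, by omega⟩
  have ht1 : 1 ≤ t ^ 2 := Nat.one_le_pow _ _ (by omega)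
  obtain ⟨m, hm⟩ : ∃ m, m = 3 * t ^ 2 := ⟨_, rfl⟩
  have hm2 : 2 ≤ m := by omega
  rw [← hm] at hbad
  have hsq : ¬ IsSquare m := by
    rintro ⟨x, hx⟩
    have h3 : Nat.Prime 3 := Nat.prime_three
    have hf : Fact (Nat.Prime 3) := ⟨h3⟩
    have hx0 : x ≠ 0 := by
      rintro rfl
      omega
    have ht0 : t ≠ 0 := by omega
    have h1 : padicValNat 3 m = 1 + 2 * padicValNat 3 t := by
      rw [hm, sq, padicValNat.mul (by norm_num) (mul_ne_zero ht0 ht0), padicValNat.mul ht0 ht0,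
        padicValNat.self (by norm_num)]
      ring
    have h2 : padicValNat 3 m = 2 * padicValNat 3 x := by
      rw [hx, padicValNat.mul hx0 hx0]
      ring
    omega
  have hp2 : p ≠ 2 := by
    rintro rfl
    obtain ⟨i, hi⟩ := hpt
    omega
  have hpm : p ∣ m := by
    rw [hm]
    exact (hpt.trans (dvd_pow_self t two_ne_zero)).mul_left 3
  have hmz : ((m : ℤ)) = 3 * (t : ℤ) ^ 2 := by exact_mod_cast hm
  have hbz : (2 : ℤ) ∣ 3 * (t : ℤ) ^ 2 - 1 := by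
    have htz : (t : ℤ) = 2 * j + 1 := by exact_mod_cast hj
    rw [htz]
    exact ⟨6 * (j : ℤ) ^ 2 + 6 * j + 1, by ring⟩
  have ht := test hm2 hsq hbad (3 * (t : ℤ)) (3 * (t : ℤ) ^ 2 - 1) hbz (by rw [hmz]; ring) p hp hp2 hpm
  have htp : ((t : ℕ) : ZMod p) = 0 := (ZMod.natCast_eq_zero_iff t p).2 hpt
  have he1 : ((3 * (t : ℤ) : ℤ) : ZMod p) = 0 := by
    push_cast
    rw [htp, mul_zero]
  rw [he1, zero_add, mul_one] at ht
  have hodd : Odd ((m ^ 2 + m) / 4) := by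
    have h8 : m % 8 = 3 := by
      have h9 : m = 8 * (3 * (j * (j + 1) / 2)) + 3 := by
        obtain ⟨r, hr⟩ := Nat.even_mul_succ_self j
        have h10 : j * (j + 1) / 2 = r := by
          rw [hr]
          omega
        rw [h10, hm, hj]
        have h11 : (2 * j + 1) ^ 2 = 4 * (j * (j + 1)) + 1 := by ring
        rw [h11, hr]
        ring
      omega
    obtain ⟨i, hi⟩ : ∃ i, m = 8 * i + 3 := ⟨m / 8, by omega⟩
    have h9 : m ^ 2 + m = 4 * (2 * (8 * i ^ 2 + 7 * i + 1) + 1) := by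
      rw [hi]
      ring
    rw [h9, Nat.mul_div_cancel_left _ (by norm_num : 0 < 4)]
    exact ⟨8 * i ^ 2 + 7 * i + 1, rfl⟩
  rw [hodd.neg_one_pow, neg_one_mul] at ht
  exact (ZMod.exists_sq_eq_neg_two_iff hp2).1 ht

/-- `t ≡ 5, 7 mod 8` -/
theorem excluded3 (t : ℕ) (h : t % 8 = 5 ∨ t % 8 = 7) : ¬ Bad (3 * t ^ 2) := by
  intro hbad
  have := mod8_b t (by omega) fun p hp hpd => family3 t (by omega) hbad p hp hpd
  omega

end Pool.Agent.H37.QT
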