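import Pool.Agent.H37.QT.Test

/-!
QT Two: the biquadratic test for the prime 2: if `m` is even and `m² + m + 1 = a² + b²` with `b` even then `8 ∣ b`.
-/

set_option autoImplicit false

namespace Pool.Agent.H37.QT

open Pool.Agent.H37.PPC Pool.Agent.H37.PV

/-- reciprocity for `w ≡ 1 mod 4` and an odd integer -/
theorem jac_swap (w : ℕ) (hw : w % 4 = 1) (x : ℤ) (hx : x % 2 = 1) : jacobiSym x w = jacobiSym w x.natAbs := by
  have hxo : Odd x.natAbs := Nat.odd_iff.2 (by omega)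
  have h1 := jacobiSym.quadratic_reciprocity_one_mod_four hw hxo
  rw [h1]
  rcases Int.natAbs_eq x with h | h
  · exact congrArg (fun z => jacobiSym z w) h
  · have h2 : jacobiSym x w = jacobiSym (-(x.natAbs : ℤ)) w := congrArg (fun z => jacobiSym z w) h
    rw [h2, jacobiSym.neg _ (Nat.odd_iff.2 (by omega)), ZMod.χ₄_nat_one_mod_four hw, one_mul]

theorem prime_case (w : ℕ) (a b : ℤ) (hw : a ^ 2 + b ^ 2 = w) (hc : IsCoprime a b) (q : ℕ) (hq : q.Prime) (hqw : q ∣ w)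
    (hq8 : q % 8 = 1) (y : ZMod q) (hy : (2 : ZMod q) = y ^ 4) :
    jacobiSym ((a + b) * a) q = (-1) ^ ((q - 1) / 8) := by
  have hfq : Fact q.Prime := ⟨hq⟩
  have hw0 : (a : ZMod q) ^ 2 + (b : ZMod q) ^ 2 = 0 := by
    have h1 : ((w : ℕ) : ZMod q) = 0 := (ZMod.natCast_eq_zero_iff w q).2 hqw
    have h2 := congrArg (Int.cast : ℤ → ZMod q) hw
    push_cast at h2
    rw [h2, h1]
  have ha0 : (a : ZMod q) ≠ 0 := by
    intro h0
    have hb0 : (b : ZMod q) = 0 := by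
      rw [h0] at hw0
      have h1 : (b : ZMod q) ^ 2 = 0 := by linear_combination hw0
      exact pow_eq_zero_iff (two_ne_zero) |>.1 h1
    have h1 : (q : ℤ) ∣ a := (ZMod.intCast_zmod_eq_zero_iff_dvd a q).1 h0
    have h2 : (q : ℤ) ∣ b := (ZMod.intCast_zmod_eq_zero_iff_dvd b q).1 hb0
    have h3 := hc.isUnit_of_dvd' h1 h2
    have h4 := Int.isUnit_iff.1 h3
    have := hq.two_le
    omega
  obtain ⟨c, hcdef⟩ : ∃ c : ZMod q, c = ((a : ZMod q) + b) * a := ⟨_, rfl⟩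
  obtain ⟨f, hf⟩ : ∃ f : ZMod q, f = (b : ZMod q) * (a : ZMod q)⁻¹ := ⟨_, rfl⟩
  have hbf : (b : ZMod q) = a * f := by
    rw [hf]
    field_simp
  have hf2 : f ^ 2 = -1 := by
    rw [hbf] at hw0
    have h1 : (a : ZMod q) ^ 2 * (f ^ 2 + 1) = 0 := by linear_combination hw0
    rcases mul_eq_zero.1 h1 with h2 | h2
    · exact absurd h2 (pow_ne_zero 2 ha0)
    · linear_combination h2
  have hy0 : y ≠ 0 := by
    rintro rfl
    have h1 : ((2 : ℕ) : ZMod q) = 0 := by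
      push_cast
      rw [hy]
      ring
    rw [ZMod.natCast_eq_zero_iff] at h1
    have := Nat.le_of_dvd (by norm_num) h1
    have := hq.two_le
    omega
  have hc2 : c ^ 2 = (y * a) ^ 4 * f := by
    have h1 : c ^ 2 = 2 * (a : ZMod q) ^ 4 * f := by
      rw [hcdef, hbf]
      linear_combination (a : ZMod q) ^ 4 * hf2
    rw [h1, hy]
    ring
  have hcq : c ^ (q / 2) = (-1) ^ ((q - 1) / 8) := by
    have e1 : q / 2 = 2 * (2 * ((q - 1) / 8)) := by omega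
    have e2 : 4 * (2 * ((q - 1) / 8)) = q - 1 := by omega
    rw [e1, pow_mul, hc2, mul_pow, ← pow_mul, e2, ZMod.pow_card_sub_one_eq_one (mul_ne_zero hy0 ha0), one_mul, pow_mul, hf2]
  have hleg : ((jacobiSym ((a + b) * a) q : ℤ) : ZMod q) = (-1) ^ ((q - 1) / 8) := by
    rw [← jacobiSym.legendreSym.to_jacobiSym, legendreSym.eq_pow]
    push_cast
    rw [← hcdef, hcq]
  have h17 : 17 ≤ q := by
    have := hq.two_le
    rcases (by omega : q = 9 ∨ q < 9 ∨ 17 ≤ q) with h | h | h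
    · rw [h] at hq
      norm_num at hq
    · omega
    · exact h
  have key : ∀ x e : ℤ, (x = 0 ∨ x = 1 ∨ x = -1) → (e = 1 ∨ e = -1) → ((x : ℤ) : ZMod q) = (e : ZMod q) → x = e := by
    intro x e hx he hxe
    have h1 : ((x - e : ℤ) : ZMod q) = 0 := by
      push_cast
      rw [hxe, sub_self]
    have h2 := (ZMod.intCast_zmod_eq_zero_iff_dvd (x - e) q).1 h1
    have h3 : x - e = 0 := by
      apply Int.eq_zero_of_abs_lt_dvd h2
      rw [abs_lt]
      omega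
    omega
  rcases Nat.even_or_odd ((q - 1) / 8) with h | h
  · rw [h.neg_one_pow] at hleg ⊢
    exact key _ 1 (jacobiSym.trichotomy _ _) (Or.inl rfl) (by rw [hleg]; norm_num)
  · rw [h.neg_one_pow] at hleg ⊢
    exact key _ (-1) (jacobiSym.trichotomy _ _) (Or.inr rfl) (by rw [hleg]; norm_num)

theorem two_div (w : ℕ) (a b : ℤ) (hw : a ^ 2 + b ^ 2 = w) (hb : (2 : ℤ) ∣ b) (hc : IsCoprime a b) (ha : a % 2 = 1)
    (H : ∀ q : ℕ, q.Prime → q ∣ w → q % 8 = 1 ∧ ∃ y : ZMod q, (2 : ZMod q) = y ^ 4) : (8 : ℤ) ∣ b := by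
  have hw0 : w ≠ 0 := by
    rintro rfl
    have h1 : 0 < a ^ 2 := by
      have : a ≠ 0 := by
        rintro rfl
        norm_num at ha
      positivity
    push_cast at hw
    nlinarith [sq_nonneg b]
  have hS : ∀ n : ℕ, n ∣ w → n % 8 = 1 ∧ jacobiSym ((a + b) * a) n = (-1) ^ ((n - 1) / 8) := by
    intro n
    induction n using Nat.recOnMul with
    | zero =>
      intro h
      exact absurd (Nat.eq_zero_of_zero_dvd h) hw0
    | one =>
      intro _
      refine ⟨by norm_num, ?_⟩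
      rw [jacobiSym.one_right]
      norm_num
    | prime q hq =>
      intro h
      obtain ⟨h8, y, hy⟩ := H q hq h
      exact ⟨h8, prime_case w a b hw hc q hq h h8 y hy⟩
    | mul x y hx hy =>
      intro h
      obtain ⟨hx8, hxJ⟩ := hx ((dvd_mul_right x y).trans h)
      obtain ⟨hy8, hyJ⟩ := hy ((dvd_mul_left y x).trans h)
      refine ⟨by rw [Nat.mul_mod, hx8, hy8], ?_⟩
      rw [jacobiSym.mul_right' _ (by omega) (by omega), hxJ, hyJ, ← pow_add]
      obtain ⟨s, hs⟩ : ∃ s, x = 8 * s + 1 := ⟨x / 8, by omega⟩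
      obtain ⟨t, ht⟩ : ∃ t, y = 8 * t + 1 := ⟨y / 8, by omega⟩
      have e1 : (x - 1) / 8 = s := by omega
      have e2 : (y - 1) / 8 = t := by omega
      have e3 : (x * y - 1) / 8 = 2 * (4 * (s * t)) + (s + t) := by
        have h9 : x * y = 8 * (2 * (4 * (s * t)) + (s + t)) + 1 := by
          rw [hs, ht]
          ring
        omega
      rw [e1, e2, e3, pow_add _ (2 * (4 * (s * t))), pow_mul, neg_one_sq, one_pow, one_mul, pow_add]
  obtain ⟨hw8, hJ⟩ := hS w dvd_rfl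
  have hgcd : Nat.gcd a.natAbs b.natAbs = 1 := Int.isCoprime_iff_gcd_eq_one.1 hc
  have hJa : jacobiSym a w = 1 := by
    rw [jac_swap w (by omega) a ha]
    have h1 : ((w : ℤ)) % (a.natAbs : ℤ) = (b ^ 2) % (a.natAbs : ℤ) := by
      apply Int.modEq_iff_dvd.2
      have h2 : b ^ 2 - (w : ℤ) = -(a ^ 2) := by rw [← hw]; ring
      rw [h2, dvd_neg]
      exact (Int.natAbs_dvd.2 (dvd_pow_self a two_ne_zero))
    rw [jacobiSym.mod_left' h1]
    apply jacobiSym.sq_one'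
    rw [Int.gcd_eq_natAbs_gcd_natAbs, Int.natAbs_natCast, Nat.gcd_comm]
    exact hgcd
  have hJab : jacobiSym (a + b) w = (-1) ^ ((w - 1) / 8) := by
    rw [jacobiSym.mul_left, hJa, mul_one] at hJ
    exact hJ
  have huo : (a + b) % 2 = 1 := by omega
  obtain ⟨n, hn⟩ : ∃ n : ℕ, n = (a + b).natAbs := ⟨_, rfl⟩
  have hno : n % 2 = 1 := by omega
  rw [jac_swap w (by omega) (a + b) huo, ← hn] at hJab
  have hn2 : ((n : ℤ)) ^ 2 = (a + b) ^ 2 := by rw [hn, Int.natCast_natAbs, sq_abs]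
  have hJ2 : jacobiSym 2 n * jacobiSym w n = 1 := by
    rw [← jacobiSym.mul_left]
    have h1 : (2 * (w : ℤ)) % (n : ℤ) = ((a - b) ^ 2) % (n : ℤ) := by
      apply Int.modEq_iff_dvd.2
      have h2 : (a - b) ^ 2 - 2 * (w : ℤ) = -((n : ℤ) ^ 2) := by rw [hn2, ← hw]; ring
      rw [h2, dvd_neg]
      exact dvd_pow_self _ two_ne_zero
    rw [jacobiSym.mod_left' h1]
    apply jacobiSym.sq_one'
    have h3 : IsCoprime (a - b) (a + b) := by
      obtain ⟨x, y, hxy⟩ := hc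
      have h4 : IsCoprime (2 : ℤ) (a + b) := by
        rw [Int.isCoprime_iff_gcd_eq_one, Int.gcd_eq_natAbs_gcd_natAbs]
        have h5 : Nat.Coprime 2 (a + b).natAbs := by
          rw [Nat.coprime_two_left]
          exact Nat.odd_iff.2 (by omega)
        exact h5
      obtain ⟨r, t, hrt⟩ := h4
      have h6 : IsCoprime (2 : ℤ) (a + b) := ⟨r, t, hrt⟩
      have h7 : IsCoprime ((a - b)) ((a + b)) := by
        have h8 : ∃ α β : ℤ, α * (a - b) + β * (a + b) = 2 := ⟨x - y, x + y, by linear_combination 2 * hxy⟩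
        obtain ⟨α, β, hαβ⟩ := h8
        exact ⟨r * α, r * β + t, by linear_combination r * hαβ + hrt⟩
      exact h7
    have h9 := Int.isCoprime_iff_gcd_eq_one.1 h3
    rw [Int.gcd_eq_natAbs_gcd_natAbs] at h9 ⊢
    rw [Int.natAbs_natCast, hn]
    exact h9
  have hodd : Odd n := Nat.odd_iff.2 hno
  rw [jacobiSym.at_two hodd, hJab, ZMod.χ₈_nat_eq_if_mod_eight, if_neg (by omega)] at hJ2
  obtain ⟨k, hk⟩ : ∃ k, w = 8 * k + 1 := ⟨w / 8, by omega⟩
  have hk2 : (w - 1) / 8 = k := by omega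
  rw [hk2] at hJ2
  -- `4 ∣ b`
  obtain ⟨b', hb'⟩ := hb
  obtain ⟨a', ha'⟩ : ∃ a', a = 2 * a' + 1 := ⟨a / 2, by omega⟩
  have hwz : a ^ 2 + b ^ 2 = 8 * (k : ℤ) + 1 := by rw [hw, hk]; push_cast; ring
  have h4 : (2 : ℤ) ∣ b' := by
    have h5 : a' * (a' + 1) + b' ^ 2 = 2 * (k : ℤ) := by
      rw [ha', hb'] at hwz
      linarith [hwz]
    have h6 : Even (a' * (a' + 1)) := Int.even_mul_succ_self a'
    obtain ⟨r, hr⟩ := h6
    have h7 : (2 : ℤ) ∣ b' ^ 2 := ⟨(k : ℤ) - r, by rw [hr] at h5; linarith⟩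
    exact Int.prime_two.dvd_of_dvd_pow h7
  obtain ⟨β, hβ⟩ := h4
  have hbβ : b = 4 * β := by rw [hb', hβ]; ring
  have hn3 : ((n : ℤ)) ^ 2 = 8 * ((k : ℤ) + a * β) + 1 := by
    rw [hn2, hbβ]
    rw [hbβ] at hwz
    linear_combination hwz
  have hfin : (2 : ℤ) ∣ a * β := by
    by_cases h8 : n % 8 = 1 ∨ n % 8 = 7
    · rw [if_pos h8, one_mul] at hJ2
      have hke : Even k := by
        by_contra hne
        rw [Nat.not_even_iff_odd] at hne
        rw [hne.neg_one_pow] at hJ2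
        norm_num at hJ2
      obtain ⟨k', hk'⟩ := hke
      have h9 : (2 : ℤ) ∣ (k : ℤ) + a * β := by
        rcases h8 with h8 | h8
        · obtain ⟨i, hi⟩ : ∃ i : ℤ, (n : ℤ) = 8 * i + 1 := ⟨(n : ℤ) / 8, by omega⟩
          rw [hi] at hn3
          exact ⟨4 * i ^ 2 + i, by linarith⟩
        · obtain ⟨i, hi⟩ : ∃ i : ℤ, (n : ℤ) = 8 * i - 1 := ⟨((n : ℤ) + 1) / 8, by omega⟩
          rw [hi] at hn3
          exact ⟨4 * i ^ 2 - i, by linarith⟩
      obtain ⟨j, hj⟩ := h9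
      exact ⟨j - k', by rw [hk'] at hj; push_cast at hj; linarith⟩
    · rw [if_neg h8] at hJ2
      have hko : Odd k := by
        by_contra hne
        rw [Nat.not_odd_iff_even] at hne
        rw [hne.neg_one_pow] at hJ2
        norm_num at hJ2
      obtain ⟨k', hk'⟩ := hko
      have h9 : (2 : ℤ) ∣ (k : ℤ) + a * β - 1 := by
        rcases (by omega : n % 8 = 3 ∨ n % 8 = 5) with h8 | h8
        · obtain ⟨i, hi⟩ : ∃ i : ℤ, (n : ℤ) = 8 * i + 3 := ⟨(n : ℤ) / 8, by omega⟩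
          rw [hi] at hn3
          exact ⟨4 * i ^ 2 + 3 * i, by linarith⟩
        · obtain ⟨i, hi⟩ : ∃ i : ℤ, (n : ℤ) = 8 * i - 3 := ⟨((n : ℤ) + 3) / 8, by omega⟩
          rw [hi] at hn3
          exact ⟨4 * i ^ 2 - 3 * i, by linarith⟩
      obtain ⟨j, hj⟩ := h9
      exact ⟨j - k', by rw [hk'] at hj; push_cast at hj; linarith⟩
  have h2β : (2 : ℤ) ∣ β := by
    rcases Int.prime_two.dvd_or_dvd hfin with h | h
    · omega
    · exact h
  obtain ⟨γ, hγ⟩ := h2β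
  exact ⟨γ, by rw [hbβ, hγ]; ring⟩

/-- the biquadratic test for the prime 2 -/
theorem test2 {m : ℕ} (hm : 2 ≤ m) (hsq : ¬ IsSquare m) (hbad : Bad m) (he : 2 ∣ m) (a b : ℤ) (hb : (2 : ℤ) ∣ b)
    (hab : a ^ 2 + b ^ 2 = (m : ℤ) ^ 2 + m + 1) : (8 : ℤ) ∣ b := by
  have hM := mg_of_bad hm hsq hbad
  have hm1 : (m : ℤ) ^ 2 + m = m * (m + 1) := by ring
  have hmz : (2 : ℤ) ∣ (m : ℤ) := by exact_mod_cast he
  have hao : a % 2 = 1 := by
    by_contra hne
    obtain ⟨i, hi⟩ : (2 : ℤ) ∣ a := by omega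
    obtain ⟨j, hj⟩ := hb
    obtain ⟨r, hr⟩ := hmz
    rw [hi, hj, hr] at hab
    have : 2 * (2 * i ^ 2 + 2 * j ^ 2 - 2 * r ^ 2 - r) = 1 := by linarith
    omega
  have ha0 : a ≠ 0 := by
    rintro rfl
    norm_num at hao
  obtain ⟨g, a', b', hg, hgc, ha', hb'⟩ := Int.exists_gcd_one' (Int.gcd_pos_of_ne_zero_left b ha0)
  have hc : IsCoprime a' b' := Int.isCoprime_iff_gcd_eq_one.2 hgc
  have ha'o : a' % 2 = 1 := by
    by_contra hne
    obtain ⟨i, hi⟩ : (2 : ℤ) ∣ a' := by omega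
    rw [hi, mul_assoc] at ha'
    omega
  have hgo : (g : ℤ) % 2 = 1 := by
    by_contra hne
    obtain ⟨i, hi⟩ : (2 : ℤ) ∣ (g : ℤ) := by omega
    have h1 : a = 2 * (a' * i) := by rw [ha', hi]; ring
    omega
  have hb'e : (2 : ℤ) ∣ b' := by
    rw [hb'] at hb
    rcases Int.prime_two.dvd_or_dvd hb with h | h
    · exact h
    · omega
  obtain ⟨w, hw⟩ : ∃ w : ℕ, w = (a' ^ 2 + b' ^ 2).natAbs := ⟨_, rfl⟩
  have hwz : a' ^ 2 + b' ^ 2 = (w : ℤ) := by
    rw [hw, Int.natCast_natAbs, abs_of_nonneg (by positivity)]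
  have hv : m ^ 2 + m + 1 = g ^ 2 * w := by
    have h1 : ((m ^ 2 + m + 1 : ℕ) : ℤ) = ((g ^ 2 * w : ℕ) : ℤ) := by
      push_cast
      rw [← hab, ← hwz, ha', hb']
      ring
    exact_mod_cast h1
  have hvo : (m ^ 2 + m + 1) % 2 = 1 := by
    obtain ⟨r, hr⟩ := he
    have : m ^ 2 + m + 1 = 2 * (2 * r ^ 2 + r) + 1 := by rw [hr]; ring
    omega
  have h8 : (8 : ℤ) ∣ b' := by
    refine two_div w a' b' hwz hb'e hc ha'o fun q hq hqw => ?_
    have hfq : Fact q.Prime := ⟨hq⟩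
    have hqv : q ∣ m ^ 2 + m + 1 := by
      rw [hv]
      exact hqw.mul_left _
    have hq2 : 2 ≠ q := by
      rintro rfl
      omega
    obtain ⟨y, hy⟩ := fourth_power Nat.prime_two hq hq2 (hM 2 q Nat.prime_two he hq hqv)
    have hy' : (2 : ZMod q) = y ^ 4 := by exact_mod_cast hy
    refine ⟨?_, y, hy'⟩
    have h2 : q % 8 = 1 ∨ q % 8 = 7 := (ZMod.exists_sq_eq_two_iff hq2.symm).1 ⟨y ^ 2, by rw [hy']; ring⟩
    have hw0 : (a' : ZMod q) ^ 2 + (b' : ZMod q) ^ 2 = 0 := by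
      have h1 : ((w : ℕ) : ZMod q) = 0 := (ZMod.natCast_eq_zero_iff w q).2 hqw
      have h2 := congrArg (Int.cast : ℤ → ZMod q) hwz
      push_cast at h2
      rw [h2, h1]
    have ha'0 : (a' : ZMod q) ≠ 0 := by
      intro h0
      have hb0 : (b' : ZMod q) = 0 := by
        rw [h0] at hw0
        have h1 : (b' : ZMod q) ^ 2 = 0 := by linear_combination hw0
        exact pow_eq_zero_iff (two_ne_zero) |>.1 h1
      have h1 : (q : ℤ) ∣ a' := (ZMod.intCast_zmod_eq_zero_iff_dvd a' q).1 h0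
      have h2 : (q : ℤ) ∣ b' := (ZMod.intCast_zmod_eq_zero_iff_dvd b' q).1 hb0
      have h3 := hc.isUnit_of_dvd' h1 h2
      have h4 := Int.isUnit_iff.1 h3
      have := hq.two_le
      omega
    have h4 : q % 4 ≠ 3 := by
      apply ZMod.exists_sq_eq_neg_one_iff.1
      refine ⟨(b' : ZMod q) * (a' : ZMod q)⁻¹, ?_⟩
      field_simp
      linear_combination -hw0
    omega
  rw [hb']
  exact h8.mul_right _

/-- the numbers `3 t ^ 2`, `t` even -/
theorem excluded3_even (t : ℕ) (h : t % 8 = 2 ∨ t % 8 = 4 ∨ t % 8 = 6) : ¬ Bad (3 * t ^ 2) := by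
  intro hbad
  have hf : Fact (Nat.Prime 3) := ⟨Nat.prime_three⟩
  have ht0 : t ≠ 0 := by omega
  have ht1 : 1 ≤ t ^ 2 := Nat.one_le_pow _ _ (by omega)
  have hsq : ¬ IsSquare (3 * t ^ 2) := by
    rintro ⟨x, hx⟩
    have hx0 : x ≠ 0 := by
      rintro rfl
      omega
    have h1 : padicValNat 3 (3 * t ^ 2) = 1 + 2 * padicValNat 3 t := by
      rw [sq, padicValNat.mul (by norm_num) (mul_ne_zero ht0 ht0), padicValNat.mul ht0 ht0,
        padicValNat.self (by norm_num)]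
      ring
    have h2 : padicValNat 3 (3 * t ^ 2) = 2 * padicValNat 3 x := by
      rw [hx, padicValNat.mul hx0 hx0]
      ring
    omega
  have he : 2 ∣ 3 * t ^ 2 := by
    obtain ⟨i, hi⟩ : ∃ i, t = 2 * i := ⟨t / 2, by omega⟩
    rw [hi]
    exact ⟨6 * i ^ 2, by ring⟩
  have h8 := test2 (by omega) hsq hbad he (3 * (t : ℤ) ^ 2 - 1) (3 * (t : ℤ)) (by omega) (by push_cast; ring)
  omega

/-- `n = (s ^ 2 + 24) / 11` -/
theorem excluded11 (n s : ℕ) (hn : 11 * n = s ^ 2 + 24) (hs : s % 8 = 4) (hsq : ¬ IsSquare n) : ¬ Bad n := by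
  intro hbad
  obtain ⟨i, hi⟩ : ∃ i, s = 8 * i + 4 := ⟨s / 8, by omega⟩
  have h2 : 2 ∣ n := by
    have h3 : 11 * n = 2 * (32 * i ^ 2 + 32 * i + 20) := by rw [hn, hi]; ring
    omega
  have hnz : 11 * (n : ℤ) = (s : ℤ) ^ 2 + 24 := by exact_mod_cast hn
  have h8 := test2 (by omega) hsq hbad h2 ((n : ℤ) - 5) (s : ℤ) (by omega) (by linear_combination -hnz)
  omega

end Pool.Agent.H37.QT
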